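import Mathlib

/-!
# No bound on the number of jumps needed to enlarge a grasshopper configuration
-/

namespace Pool.Agent.Results.MP_59f6dc_co.Grasshopper

/-- A configuration of `N` pieces in `ℝ^d`. -/
abbrev Config (N d : ℕ) := Fin N → EuclideanSpace ℝ (Fin d)

/-- The jump of piece `i` over piece `j`. -/
noncomputable def jump {N d : ℕ} (P : Config N d) (i j : Fin N) : Config N d :=
  Function.update P i ((2 : ℝ) • P j - P i)

/-- `Q` is obtained from `P` by exactly `n` legal jumps. -/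
def ReachIn {N d : ℕ} : ℕ → Config N d → Config N d → Prop
  | 0, P, Q => P = Q
  | n + 1, P, Q => ∃ i j, i ≠ j ∧ ReachIn n (jump P i j) Q

/-- `Q` is similar to `P` but larger: the multiset of positions of `Q` is the image of the
multiset of positions of `P` under a similarity `x ↦ r • R x + t` with `R` orthogonal and
ratio `r > 1`. -/
def SimilarLarger {N d : ℕ} (P Q : Config N d) : Prop :=
  ∃ (r : ℝ) (R : EuclideanSpace ℝ (Fin d) ≃ₗᵢ[ℝ] EuclideanSpace ℝ (Fin d))
    (t : EuclideanSpace ℝ (Fin d)), 1 < r ∧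
    (Finset.univ : Finset (Fin N)).val.map Q =
      (Finset.univ : Finset (Fin N)).val.map (fun i => r • R (P i) + t)

/-- `P` is enlargeable. -/
def Enlargeable {N d : ℕ} (P : Config N d) : Prop :=
  ∃ n Q, ReachIn n P Q ∧ SimilarLarger P Q

/-- The least number of jumps taking `P` to a similar but larger configuration. -/
noncomputable def J {N d : ℕ} (P : Config N d) : ℕ :=
  sInf {n | ∃ Q, ReachIn n P Q ∧ SimilarLarger P Q}

section general

variable {N d : ℕ}

lemma ReachIn.trans {m n : ℕ} {P Q R : Config N d} (h1 : ReachIn m P Q) (h2 : ReachIn n Q R) :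
    ReachIn (m + n) P R := by
  induction m generalizing P with
  | zero =>
    have : P = Q := h1
    subst this
    rwa [Nat.zero_add]
  | succ m ih =>
    obtain ⟨i, j, hij, h3⟩ := h1
    rw [Nat.succ_add]
    exact ⟨i, j, hij, ih h3⟩

lemma bound_jump {P : Config N d} {M : ℝ} (h : ∀ i j, ‖P i - P j‖ ≤ M) (a b : Fin N) :
    ∀ i j, ‖jump P a b i - jump P a b j‖ ≤ 2 * M := by
  have hM : ∀ i : Fin N, 0 ≤ M := fun i => (norm_nonneg _).trans (h i i)
  have key : ∀ j, ‖((2 : ℝ) • P b - P a) - P j‖ ≤ 2 * M := by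
    intro j
    have h1 : ((2 : ℝ) • P b - P a) - P j = (P b - P a) + (P b - P j) := by
      rw [two_smul]; abel
    rw [h1]
    refine (norm_add_le _ _).trans ?_
    linarith [h b a, h b j]
  intro i j
  unfold jump
  by_cases hi : i = a
  · subst hi
    by_cases hj : j = i
    · subst hj
      simp only [sub_self, norm_zero]
      linarith [hM j]
    · rw [Function.update_self, Function.update_of_ne hj]
      exact key j
  · by_cases hj : j = a
    · subst hj
      rw [Function.update_self, Function.update_of_ne hi, norm_sub_rev]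
      exact key i
    · rw [Function.update_of_ne hi, Function.update_of_ne hj]
      linarith [h i j, hM i]

lemma bound_reach {n : ℕ} {P Q : Config N d} (hr : ReachIn n P Q) {M : ℝ}
    (h : ∀ i j, ‖P i - P j‖ ≤ M) : ∀ i j, ‖Q i - Q j‖ ≤ 2 ^ n * M := by
  induction n generalizing P M with
  | zero =>
    have : P = Q := hr
    subst this
    simpa using h
  | succ n ih =>
    obtain ⟨a, b, _, h1⟩ := hr
    have h2 := ih h1 (bound_jump h a b)
    intro i j
    have := h2 i j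
    rw [pow_succ]
    linarith

end general

section line

variable {N : ℕ}

/-- all differences lie in the subgroup `H` -/
def AllIn (H : AddSubgroup ℝ) (P : Config N 1) : Prop := ∀ i j, P i 0 - P j 0 ∈ H

lemma allIn_jump {H : AddSubgroup ℝ} {P : Config N 1} (h : AllIn H P) (a b : Fin N) :
    AllIn H (jump P a b) := by
  have key : ∀ j, (((2 : ℝ) • P b - P a) : EuclideanSpace ℝ (Fin 1)) 0 - P j 0 ∈ H := by
    intro j
    have h1 : (((2 : ℝ) • P b - P a) : EuclideanSpace ℝ (Fin 1)) 0 - P j 0 =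
        (P b 0 - P a 0) + (P b 0 - P j 0) := by
      simp; ring
    rw [h1]
    exact H.add_mem (h b a) (h b j)
  intro i j
  unfold jump
  by_cases hi : i = a
  · subst hi
    by_cases hj : j = i
    · subst hj
      simp only [sub_self]
      exact H.zero_mem
    · rw [Function.update_self, Function.update_of_ne hj]
      exact key j
  · by_cases hj : j = a
    · subst hj
      rw [Function.update_self, Function.update_of_ne hi, ← neg_sub]
      exact H.neg_mem (key i)
    · rw [Function.update_of_ne hi, Function.update_of_ne hj]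
      exact h i j

lemma jump_jump {d : ℕ} (P : Config N d) {a b : Fin N} (hab : a ≠ b) :
    jump (jump P a b) a b = P := by
  funext i
  unfold jump
  by_cases hi : i = a
  · subst hi
    rw [Function.update_self, Function.update_of_ne hab.symm, Function.update_self]
    abel
  · rw [Function.update_of_ne hi, Function.update_of_ne hi]

lemma allIn_reach {H : AddSubgroup ℝ} {n : ℕ} {P Q : Config N 1} (hr : ReachIn n P Q) :
    AllIn H P ↔ AllIn H Q := by
  induction n generalizing P with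
  | zero =>
    have : P = Q := hr
    rw [this]
  | succ n ih =>
    obtain ⟨a, b, hab, h1⟩ := hr
    rw [← ih h1]
    constructor
    · intro h; exact allIn_jump h a b
    · intro h
      rw [← jump_jump P hab]
      exact allIn_jump h a b

end line

section family

/-- three points on the line -/
noncomputable def cfg (x y z : ℝ) : Config 3 1 :=
  ![WithLp.toLp 2 (fun _ => x), WithLp.toLp 2 (fun _ => y), WithLp.toLp 2 (fun _ => z)]

lemma jump20 (x y z : ℝ) : jump (cfg x y z) 2 0 = cfg x y (2 * x - z) := by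
  funext i
  fin_cases i
  · rfl
  · rfl
  · ext j
    simp [jump, cfg]

lemma jump21 (x y z : ℝ) : jump (cfg x y z) 2 1 = cfg x y (2 * y - z) := by
  funext i
  fin_cases i
  · rfl
  · rfl
  · ext j
    simp [jump, cfg]

lemma jump10 (x y z : ℝ) : jump (cfg x y z) 1 0 = cfg x (2 * x - y) z := by
  funext i
  fin_cases i
  · rfl
  · ext j
    simp [jump, cfg]
  · rfl

lemma jump12 (x y z : ℝ) : jump (cfg x y z) 1 2 = cfg x (2 * z - y) z := by
  funext i
  fin_cases i
  · rfl
  · ext j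
    simp [jump, cfg]
  · rfl

lemma reach_z (k : ℕ) (x y z : ℝ) :
    ReachIn (2 * k) (cfg x y z) (cfg x y (z + 2 * k * (y - x))) := by
  induction k generalizing z with
  | zero => simp [ReachIn]
  | succ k ih =>
    have h1 : ReachIn 2 (cfg x y z) (cfg x y (z + 2 * (y - x))) := by
      refine ⟨2, 0, by decide, 2, 1, by decide, ?_⟩
      rw [jump20, jump21]
      show cfg _ _ _ = cfg _ _ _
      congr 1
      ring
    have h2 := h1.trans (ih (z + 2 * (y - x)))
    have e1 : 2 + 2 * k = 2 * (k + 1) := by ring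
    rw [e1] at h2
    convert h2 using 2
    push_cast; ring

lemma reach_y (k : ℕ) (x y z : ℝ) :
    ReachIn (2 * k) (cfg x y z) (cfg x (y + 2 * k * (z - x)) z) := by
  induction k generalizing y with
  | zero => simp [ReachIn]
  | succ k ih =>
    have h1 : ReachIn 2 (cfg x y z) (cfg x (y + 2 * (z - x)) z) := by
      refine ⟨1, 0, by decide, 1, 2, by decide, ?_⟩
      rw [jump10, jump12]
      show cfg _ _ _ = cfg _ _ _
      congr 1
      ring
    have h2 := h1.trans (ih (y + 2 * (z - x)))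
    have e1 : 2 + 2 * k = 2 * (k + 1) := by ring
    rw [e1] at h2
    convert h2 using 2
    push_cast; ring

/-- the family -/
noncomputable def fam (n : ℕ) : Config 3 1 := cfg 0 1 (√((n : ℝ) ^ 2 + 1) - n)

lemma sq_D (n : ℕ) : √((n : ℝ) ^ 2 + 1) * √((n : ℝ) ^ 2 + 1) = (n : ℝ) ^ 2 + 1 :=
  Real.mul_self_sqrt (by positivity)

lemma fam_enl (n : ℕ) (hn : 1 ≤ n) : Enlargeable (fam n) := by
  have h1 := reach_z n 0 1 (√((n : ℝ) ^ 2 + 1) - n)
  have h2 := reach_y n 0 1 (√((n : ℝ) ^ 2 + 1) - n + 2 * n * (1 - 0))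
  refine ⟨_, _, h1.trans h2, ((n : ℝ) + √((n : ℝ) ^ 2 + 1)) ^ 2,
    LinearIsometryEquiv.refl ℝ _, 0, ?_, ?_⟩
  · have h3 : (1 : ℝ) ≤ n := by exact_mod_cast hn
    have h4 : 0 ≤ √((n : ℝ) ^ 2 + 1) := Real.sqrt_nonneg _
    have h5 := sq_D n
    nlinarith
  · congr 1
    have h5 := sq_D n
    set s := √((n : ℝ) ^ 2 + 1) with hs
    funext i
    fin_cases i
    · ext j
      simp [fam, cfg]
    · ext j
      simp [fam, cfg]
      nlinarith
    · ext j
      simp [fam, cfg]
      rw [← hs]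
      have : (n + s) ^ 2 * (s - n) = (n + s) * (s * s - n ^ 2) := by ring
      rw [this, h5]
      ring

/-- `ℤ[√D]` as an additive subgroup of `ℝ` -/
def LL (s : ℝ) : AddSubgroup ℝ where
  carrier := {x | ∃ a b : ℤ, x = a + b * s}
  zero_mem' := ⟨0, 0, by simp⟩
  add_mem' := by
    rintro x y ⟨a, b, rfl⟩ ⟨c, e, rfl⟩
    exact ⟨a + c, b + e, by push_cast; ring⟩
  neg_mem' := by
    rintro x ⟨a, b, rfl⟩
    exact ⟨-a, -b, by push_cast; ring⟩

/-- `r ℤ[√D]` -/
def HH (s r : ℝ) : AddSubgroup ℝ where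
  carrier := {x | ∃ y ∈ LL s, x = r * y}
  zero_mem' := ⟨0, (LL s).zero_mem, by simp⟩
  add_mem' := by
    rintro x y ⟨a, ha, rfl⟩ ⟨b, hb, rfl⟩
    exact ⟨a + b, (LL s).add_mem ha hb, by ring⟩
  neg_mem' := by
    rintro x ⟨a, ha, rfl⟩
    exact ⟨-a, (LL s).neg_mem ha, by ring⟩

lemma fam_all (n : ℕ) : AllIn (LL √((n : ℝ) ^ 2 + 1)) (fam n) := by
  have h0 : (0 : ℝ) ∈ LL √((n : ℝ) ^ 2 + 1) := AddSubgroup.zero_mem _
  have h1 : (1 : ℝ) ∈ LL √((n : ℝ) ^ 2 + 1) := ⟨1, 0, by simp⟩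
  have h2 : (√((n : ℝ) ^ 2 + 1) - n : ℝ) ∈ LL √((n : ℝ) ^ 2 + 1) := ⟨-n, 1, by push_cast; ring⟩
  have key : ∀ i, fam n i 0 ∈ LL √((n : ℝ) ^ 2 + 1) := by
    intro i
    fin_cases i
    · exact h0
    · exact h1
    · exact h2
  intro i j
  exact AddSubgroup.sub_mem _ (key i) (key j)

lemma fam_bound (n : ℕ) : ∀ i j, ‖fam n i - fam n j‖ ≤ 1 := by
  have h0 : √((n : ℝ) ^ 2 + 1) ≤ n + 1 := by
    rw [Real.sqrt_le_left (by positivity)]
    nlinarith [(Nat.cast_nonneg n : (0 : ℝ) ≤ n)]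
  have h1 : (n : ℝ) ≤ √((n : ℝ) ^ 2 + 1) := by
    apply Real.le_sqrt_of_sq_le
    linarith
  have key : ∀ i, 0 ≤ fam n i 0 ∧ fam n i 0 ≤ 1 := by
    intro i
    fin_cases i
    · simp [fam, cfg]
    · simp [fam, cfg]
    · simp [fam, cfg]
      constructor <;> linarith
  intro i j
  rw [EuclideanSpace.norm_eq]
  simp only [Finset.univ_unique, Fin.default_eq_zero, Finset.sum_singleton, Real.norm_eq_abs,
    sq_abs, PiLp.sub_apply]
  rw [Real.sqrt_le_one]
  have h3 := key i
  have h4 := key j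
  nlinarith

lemma unit_bound (n : ℕ) (hn : 1 ≤ n) (r : ℝ) (hr : 1 < r) (h1 : r ∈ LL √((n : ℝ) ^ 2 + 1))
    (h2 : (1 : ℝ) ∈ HH √((n : ℝ) ^ 2 + 1) r) : (n : ℝ) ≤ r := by
  have hirr : Irrational √((n : ℝ) ^ 2 + 1) := by
    have h3 : ((n : ℝ) ^ 2 + 1) = ((n ^ 2 + 1 : ℕ) : ℝ) := by push_cast; ring
    rw [h3, irrational_sqrt_natCast_iff]
    rintro ⟨k, hk⟩
    have h4 : n < k := by nlinarith
    have h5 : k < n + 1 := by nlinarith
    omega
  have hsq := sq_D n
  have hle : (n : ℝ) ≤ √((n : ℝ) ^ 2 + 1) := by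
    apply Real.le_sqrt_of_sq_le
    linarith
  have hn' : (1 : ℝ) ≤ n := by exact_mod_cast hn
  set s := √((n : ℝ) ^ 2 + 1) with hs
  obtain ⟨a, b, hab⟩ := h1
  obtain ⟨y, ⟨c, e, rfl⟩, hy⟩ := h2
  have h3 : ((a * c + (n ^ 2 + 1) * (b * e) - 1 : ℤ) : ℝ) + ((a * e + b * c : ℤ) : ℝ) * s = 0 := by
    push_cast
    have : (1 : ℝ) = (a + b * s) * (c + e * s) := by rw [← hab]; exact hy
    have h4 : (a + b * s) * (c + e * s) = a * c + (b * e) * (s * s) + (a * e + b * c) * s := by
      ring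
    rw [h4, hsq] at this
    linarith
  have h5 : a * e + b * c = 0 := by
    by_contra hne
    apply hirr
    refine ⟨-((a * c + (n ^ 2 + 1) * (b * e) - 1 : ℤ) : ℚ) / ((a * e + b * c : ℤ) : ℚ), ?_⟩
    have hne' : ((a * e + b * c : ℤ) : ℝ) ≠ 0 := by exact_mod_cast hne
    rw [Rat.cast_div, Rat.cast_neg, Rat.cast_intCast, Rat.cast_intCast, div_eq_iff hne']
    linarith
  have h6 : a * c + (n ^ 2 + 1) * (b * e) = 1 := by
    rw [h5] at h3
    simp only [Int.cast_zero, zero_mul, add_zero] at h3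
    have : (a * c + (n ^ 2 + 1) * (b * e) - 1 : ℤ) = 0 := by exact_mod_cast h3
    omega
  have h7 : (a ^ 2 - (n ^ 2 + 1) * b ^ 2) * (c ^ 2 - (n ^ 2 + 1) * e ^ 2) = 1 := by
    have : (a ^ 2 - ((n : ℤ) ^ 2 + 1) * b ^ 2) * (c ^ 2 - (n ^ 2 + 1) * e ^ 2) =
      (a * c + (n ^ 2 + 1) * (b * e)) ^ 2 - (n ^ 2 + 1) * (a * e + b * c) ^ 2 := by ring
    rw [this, h5, h6]; ring
  have h8 : (a ^ 2 - ((n : ℤ) ^ 2 + 1) * b ^ 2) = 1 ∨ (a ^ 2 - ((n : ℤ) ^ 2 + 1) * b ^ 2) = -1 :=
    Int.isUnit_iff.mp (IsUnit.of_mul_eq_one _ h7)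
  have h9 : (a + b * s) * (a - b * s) = 1 ∨ (a + b * s) * (a - b * s) = -1 := by
    have : (a + b * s) * (a - b * s) = ((a ^ 2 - ((n : ℤ) ^ 2 + 1) * b ^ 2 : ℤ) : ℝ) := by
      push_cast
      rw [← hsq]; ring
    rw [this]
    rcases h8 with h8 | h8
    · left; rw [h8]; simp
    · right; rw [h8]; simp
  rw [← hab] at h9
  have h10 : |(a : ℝ) - b * s| < 1 := by
    have : |r * (a - b * s)| = 1 := by
      rcases h9 with h | h <;> rw [h] <;> simp
    rw [abs_mul, abs_of_pos (by linarith : (0 : ℝ) < r)] at this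
    nlinarith [abs_nonneg ((a : ℝ) - b * s)]
  have hb : b ≠ 0 := by
    rintro rfl
    have h11 : a ^ 2 = 1 ∨ a ^ 2 = -1 := by simpa using h8
    rcases h11 with h | h
    · have h12 : (a : ℝ) ^ 2 = 1 := by exact_mod_cast h
      simp only [Int.cast_zero, zero_mul, add_zero] at hab
      rw [← hab] at h12
      nlinarith
    · nlinarith [sq_nonneg a]
  have hb' : (1 : ℝ) ≤ |(b : ℝ)| := by
    have : (1 : ℤ) ≤ |b| := Int.one_le_abs hb
    exact_mod_cast this
  have h11 : 2 * (b * s) = r - (a - b * s) := by rw [hab]; ring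
  have h12 : |2 * ((b : ℝ) * s)| ≤ |r| + |a - b * s| := by
    rw [h11]; exact abs_sub _ _
  rw [abs_mul, abs_mul, abs_of_pos (by linarith : (0 : ℝ) < r), abs_of_pos (by norm_num :
    (0 : ℝ) < 2), abs_of_pos (by linarith : (0 : ℝ) < s)] at h12
  nlinarith

lemma orth_one (R : EuclideanSpace ℝ (Fin 1) ≃ₗᵢ[ℝ] EuclideanSpace ℝ (Fin 1))
    (x : EuclideanSpace ℝ (Fin 1)) : R x 0 = x 0 ∨ R x 0 = - x 0 := by
  have h := R.norm_map x
  rw [EuclideanSpace.norm_eq, EuclideanSpace.norm_eq] at h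
  simp only [Finset.univ_unique, Fin.default_eq_zero, Finset.sum_singleton, Real.norm_eq_abs,
    sq_abs] at h
  rw [Real.sqrt_sq_eq_abs, Real.sqrt_sq_eq_abs] at h
  exact abs_eq_abs.mp h

lemma fam_lower (n : ℕ) (hn : 1 ≤ n) (k : ℕ) (Q : Config 3 1) (hr : ReachIn k (fam n) Q)
    (hs : SimilarLarger (fam n) Q) : (n : ℝ) ≤ 2 ^ k := by
  obtain ⟨r, R, t, hr1, hm⟩ := hs
  have hmem1 : ∀ i, ∃ j, Q j = r • R (fam n i) + t := by
    intro i
    have : r • R (fam n i) + t ∈ (Finset.univ : Finset (Fin 3)).val.map Q := by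
      rw [hm]
      exact Multiset.mem_map_of_mem _ (Finset.mem_univ i)
    rw [Multiset.mem_map] at this
    obtain ⟨j, _, hj⟩ := this
    exact ⟨j, hj⟩
  have hmem2 : ∀ j, ∃ i, Q j = r • R (fam n i) + t := by
    intro j
    have : Q j ∈ (Finset.univ : Finset (Fin 3)).val.map (fun i => r • R (fam n i) + t) := by
      rw [← hm]
      exact Multiset.mem_map_of_mem _ (Finset.mem_univ j)
    rw [Multiset.mem_map] at this
    obtain ⟨i, _, hi⟩ := this
    exact ⟨i, hi.symm⟩
  have hdiff : ∀ i j, (r • R (fam n i) + t) - (r • R (fam n j) + t) =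
      r • R (fam n i - fam n j) := by
    intro i j
    rw [map_sub, smul_sub]; abel
  have hbound := bound_reach hr (fam_bound n)
  obtain ⟨j0, hj0⟩ := hmem1 0
  obtain ⟨j1, hj1⟩ := hmem1 1
  have h01 : fam n 1 - fam n 0 = WithLp.toLp 2 (fun _ => 1) := by
    ext j
    simp [fam, cfg]
  have hnorm : ‖fam n 1 - fam n 0‖ = 1 := by
    rw [h01, EuclideanSpace.norm_eq]
    simp
  have hrle : r ≤ 2 ^ k := by
    have h1 := hbound j1 j0
    rw [hj1, hj0, hdiff, norm_smul, R.norm_map, hnorm, Real.norm_eq_abs,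
      abs_of_pos (by linarith : (0 : ℝ) < r)] at h1
    linarith
  refine le_trans ?_ hrle
  apply unit_bound n hn r hr1
  · have hQ : AllIn (LL √((n : ℝ) ^ 2 + 1)) Q := (allIn_reach hr).mp (fam_all n)
    have h1 := hQ j1 j0
    rw [← PiLp.sub_apply, hj1, hj0, hdiff, PiLp.smul_apply, smul_eq_mul] at h1
    have h2 : (fam n 1 - fam n 0 : EuclideanSpace ℝ (Fin 1)) 0 = 1 := by rw [h01]
    rcases orth_one R (fam n 1 - fam n 0) with h3 | h3
    · rw [h3, h2, mul_one] at h1; exact h1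
    · rw [h3, h2, mul_neg, mul_one] at h1
      simpa using AddSubgroup.neg_mem _ h1
  · have hQ : AllIn (HH √((n : ℝ) ^ 2 + 1) r) Q := by
      intro i j
      obtain ⟨i', hi'⟩ := hmem2 i
      obtain ⟨j', hj'⟩ := hmem2 j
      rw [← PiLp.sub_apply, hi', hj', hdiff, PiLp.smul_apply, smul_eq_mul]
      have h1 : (fam n i' - fam n j' : EuclideanSpace ℝ (Fin 1)) 0 ∈ LL √((n : ℝ) ^ 2 + 1) :=
        fam_all n i' j'
      rcases orth_one R (fam n i' - fam n j') with h3 | h3
      · rw [h3]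
        exact ⟨_, h1, rfl⟩
      · rw [h3]
        exact ⟨_, AddSubgroup.neg_mem _ h1, rfl⟩
    have hP := (allIn_reach hr).mpr hQ
    have h1 := hP 1 0
    rw [← PiLp.sub_apply, h01] at h1
    exact h1

end family

/-- For three pieces on the line there are enlargeable configurations for which the least number
`J` of jumps to a similar larger configuration is arbitrarily large. Hence no function of the
number `N` of pieces bounds `J`. -/
theorem result :
    (∀ K : ℕ, ∃ P : Config 3 1, Enlargeable P ∧ K < J P) ∧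
    ¬ ∃ f : ℕ → ℕ, ∀ (N d : ℕ) (P : Config N d), Enlargeable P → J P ≤ f N := by
  have h : ∀ K : ℕ, ∃ P : Config 3 1, Enlargeable P ∧ K < J P := by
    intro K
    refine ⟨fam (2 ^ K + 1), fam_enl _ (Nat.le_add_left 1 _), ?_⟩
    by_contra hcon
    have hne : {n | ∃ Q, ReachIn n (fam (2 ^ K + 1)) Q ∧
        SimilarLarger (fam (2 ^ K + 1)) Q}.Nonempty := by
      obtain ⟨n, Q, h1, h2⟩ := fam_enl (2 ^ K + 1) (Nat.le_add_left 1 _)
      exact ⟨n, Q, h1, h2⟩
    obtain ⟨Q, h1, h2⟩ := Nat.sInf_mem hne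
    have h3 := fam_lower _ (Nat.le_add_left 1 _) _ Q h1 h2
    have h4 : (2 : ℝ) ^ (J (fam (2 ^ K + 1))) ≤ 2 ^ K :=
      pow_le_pow_right₀ (by norm_num) (not_lt.mp hcon)
    have h5 : ((2 ^ K + 1 : ℕ) : ℝ) ≤ 2 ^ K := h3.trans h4
    push_cast at h5
    linarith
  refine ⟨h, ?_⟩
  rintro ⟨f, hf⟩
  obtain ⟨P, hP, hJ⟩ := h (f 3)
  have := hf 3 1 P hP
  omega

end Pool.Agent.Results.MP_59f6dc_co.Grasshopper
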